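import Pool.Agent.VMX.StmtsB

/-!
# Row RCC of the squad VMX: the set of reachable points is closed in the set of visible points
-/

set_option autoImplicit false

open Matrix Filter Topology

namespace Pool.Agent.VMX.H24

open Pool.Agent.PFS Pool.Agent.PFJ Pool.Agent.NBT

/-- row RCC -/
theorem rcc (hAln : AlnStmt) : RccStmt := by
  intro n C Γ Γ₀ K p J c F hF z hz x x0 hx hlim hC
  have hP : PCone C := hF.cc.toPCone
  have h1 : ∀ k, F (Function.update z p (x k)) ∧ Dm C (x k) (fS z (insert p J)) := fun k =>
    (hAln n C Γ Γ₀ K p J c F hF z hz (x k)).1 (hx k)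
  refine (hAln n C Γ Γ₀ K p J c F hF z hz x0).2 ⟨?_, ?_⟩
  · -- the family is closed
    refine hF.cld (fun k => Function.update z p (x k)) _ (fun k => (h1 k).1) ?_ ?_
    · intro i
      by_cases hi : i = p
      · subst hi
        simpa using hlim
      · simp only [Function.update_of_ne hi]
        exact tendsto_const_nhds
    · have h2 := fS_add_compl (Function.update z p x0) {p}
      rw [fS_single, Function.update_self, fS_update z p x0 (by simp)] at h2
      rw [← h2]
      exact hC
  · -- the span of the face is closed
    have hzcl : ∀ i, z i ∈ closure C := fun i => (hF.pes z hz).1.cl i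
    have hf : fS z (insert p J) ∈ closure C := fS_cl hP hzcl _
    obtain ⟨hu, hl, -⟩ := fcs n C hP (fS z (insert p J)) hf
    have hcl : ∀ k, x k ∈ closure C := by
      intro k
      have h2 := (hF.pes _ (h1 k).1).1.cl p
      rwa [Function.update_self] at h2
    have hmem : ∀ k, x k ∈ Submodule.span ℝ (Face C (fS z (insert p J))) := by
      intro k
      obtain ⟨M, -, hM⟩ := (h1 k).2
      exact hl (x k) (hcl k) M hM
    have hmem0 : x0 ∈ Submodule.span ℝ (Face C (fS z (insert p J))) := by
      have hclosed : IsClosed ((Submodule.span ℝ (Face C (fS z (insert p J))) :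
          Submodule ℝ (V n)) : Set (V n)) := Submodule.closed_of_finiteDimensional _
      exact hclosed.mem_of_tendsto hlim (Eventually.of_forall hmem)
    exact hu.2.2 x0 hmem0

end Pool.Agent.VMX.H24
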